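import Pool.Agent.W132.AG.Final

/-!
# Cayley local spectral expanders over `F_2^n` of polynomial degree (MP_6591ba_co, Q1)

For every `lam` in `(0, 1)` there are, for infinitely many `n`, Cayley complexes over `F_2^n` that
are `lam`-local spectral expanders, of degree at most `n ^ c` with `c = 8 * ⌈log_2 (18 / lam)⌉`.

Construction. Let `k` be the field with `Q = 2 ^ (2 e)` elements and let `G` be a `k`-linear code on
a finite set `X` of points in which every nonzero word has at most `lam * |X|` zeros. Put
`W = Hom_k(G, k)` and, for `x ∈ X`, `ev x ∈ W`. Let `A` be the space of functions `W → k` that are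
affine on every line in every direction `ev x`, and let `v M ∈ Hom_k(A, k)` be the evaluation at
`M ∈ W`. The generators are the `α • v M` with `α ∈ k` nonzero; two generators `α • v M` and
`β • v N` span triangles when `α ≠ β` and `N - M` is a multiple of some `ev x`; then their sum is
again a generator, since `v` is affine on the line. The link of a vertex is the graph on `k^* × W`
with `(α, M) ~ (β, N)` iff `α ≠ β` and `N - M ∈ ⋃ k (ev x)`, whose nontrivial eigenvalues are at most
`max lam (1 / (Q - 2))` in absolute value. If `L` is a code with `L * L ⊆ G`, the principal minors of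
the symmetric matrices `(M (f_i f_j))` are `2 ^ dim L` linearly independent elements of `A`, so the
degree is at most `Q ^ (dim G + 1)` and `n ≥ 2 ^ dim L`. Evaluation codes from the tower of function
fields of Garcia and Stichtenoth over `k` have `dim G ≤ 4 Γ + 5` and `dim L ≥ Γ + 2` with `Γ → ∞`.
-/

set_option autoImplicit false

namespace Pool.Agent.Results.MP_6591ba_co.PolynomialDegree

open Pool.Agent.W132.Cay

theorem result (lam : ℝ) (hlam0 : 0 < lam) (hlam1 : lam < 1) (n0 : ℕ) :
    ∃ n ≥ n0, ∃ (X : Complex2 (Fin n → ZMod 2)) (S : Finset (Fin n → ZMod 2)),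
      IsCayley X S ∧ TriInvariant X ∧ X.IsLocalSpectralExpander lam ∧
        S.card ≤ n ^ (8 * ⌈Real.logb 2 (18 / lam)⌉₊) := by
  set e := ⌈Real.logb 2 (18 / lam)⌉₊ with he
  have h18 : (0 : ℝ) < 18 / lam := by positivity
  have h1 : 18 / lam ≤ 2 ^ e := by
    have h2 : Real.logb 2 (18 / lam) ≤ e := Nat.le_ceil _
    rw [Real.logb_le_iff_le_rpow (by norm_num) h18] at h2
    rwa [Real.rpow_natCast] at h2
  have h3 : (18 : ℝ) ≤ lam * 2 ^ e := by
    rw [div_le_iff₀ hlam0] at h1
    linarith
  have h4 : 5 ≤ e := by
    by_contra hc
    push Not at hc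
    have h5 : (2 : ℝ) ^ e ≤ 2 ^ 4 := pow_le_pow_right₀ (by norm_num) (by omega)
    nlinarith
  exact Pool.Agent.W132.AG.cayley_poly lam e h4 (by linarith) n0

end Pool.Agent.Results.MP_6591ba_co.PolynomialDegree
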